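import Pool.Agent.helper37.NG.Spec
import Pool.Agent.helper55.NK.Base

set_option autoImplicit false

namespace Pool.Agent.helper37.NG

open Finset Pool.Agent.NK Pool.Agent.helper37.NF

theorem G32_q (n t : ℕ) (ht : 11 ≤ t) (h3t : 3 * t ≤ n) (h4t : n < 4 * t) :
    (n + 1) / (t - 2) = 3 ∨ ((n + 1) / (t - 2) = 4 ∧ 4 * t ≤ n + 9) := by
  have a1 : 3 ≤ (n + 1) / (t - 2) := (Nat.le_div_iff_mul_le (by omega)).2 (by omega)
  have a2 : (n + 1) / (t - 2) < 5 := (Nat.div_lt_iff_lt_mul (by omega)).2 (by omega)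
  rcases Nat.lt_or_ge ((n + 1) / (t - 2)) 4 with h | h
  · left; omega
  · right
    have := (Nat.le_div_iff_mul_le (by omega)).1 h
    omega

theorem G32 (h1 : PO3_stmt) (h2 : PO4_stmt) (h3 : RT3_stmt) : G32_stmt := by
  intro n t ht h3t h4t
  have hb : 3 * (n - 3).choose (t - 1) ≤ MV n t :=
    Pool.Agent.NK.Base.block_le n t (by omega) (by omega) 3
  have hb' : (3 : ℝ) * ((n - 3).choose (t - 1) : ℝ) ≤ (MV n t : ℝ) := by exact_mod_cast hb
  refine le_trans ?_ hb'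
  obtain ⟨r1, r2, r3⟩ := h3 n t (by omega) (by omega)
  have hn : (33 : ℝ) ≤ n := by
    have : 33 ≤ n := by omega
    exact_mod_cast this
  have e3 : t - 2 - 1 = t - 3 := by omega
  set Cb : ℝ := (n.choose t : ℝ) with hCb
  have hC0 : 0 ≤ Cb := Nat.cast_nonneg _
  set g : ℝ := g3 (t : ℝ) with hg
  rcases G32_q n t ht h3t h4t with hq | ⟨hq, h9⟩
  · have hM : (MV n (t - 2) : ℝ) = 3 * ((n - 3).choose (t - 3) : ℝ) := by
      unfold MV
      rw [hq, e3]
      push_cast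
      ring
    rw [hM]
    have hN : (0 : ℝ) < (n : ℝ) * (n - 1) * (n - 2) := by
      have x1 : (0 : ℝ) < (n : ℝ) - 1 := by linarith
      have x2 : (0 : ℝ) < (n : ℝ) - 2 := by linarith
      positivity
    have hp := h1 t n ht h3t h4t
    have hp2 : g * ((n : ℝ) * (n - 1)) * (n - 2) ≤ 3 * (t : ℝ) * ((n : ℝ) - 2 * t + 1) * (n - 2) :=
      mul_le_mul_of_nonneg_right hp (by linarith)
    have hp3 := mul_le_mul_of_nonneg_right hp2 hC0
    refine le_of_mul_le_mul_right ?_ hN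
    have l1 : (g * Cb + 3 * ((n - 3).choose (t - 3) : ℝ)) * ((n : ℝ) * (n - 1) * (n - 2)) =
        g * ((n : ℝ) * (n - 1)) * (n - 2) * Cb + 3 * (t * ((t : ℝ) - 1) * ((t : ℝ) - 2) * Cb) := by
      rw [← r2]
      ring
    have l2 : 3 * ((n - 3).choose (t - 1) : ℝ) * ((n : ℝ) * (n - 1) * (n - 2)) =
        3 * (t * ((n : ℝ) - t) * ((n : ℝ) - t - 1) * Cb) := by
      rw [← r1]
      ring
    rw [l1, l2]
    have l3 : 3 * (t * ((n : ℝ) - t) * ((n : ℝ) - t - 1) * Cb) =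
        3 * (t : ℝ) * ((n : ℝ) - 2 * t + 1) * (n - 2) * Cb + 3 * (t * ((t : ℝ) - 1) * ((t : ℝ) - 2) * Cb) := by
      ring
    linarith
  · have hM : (MV n (t - 2) : ℝ) = 4 * ((n - 4).choose (t - 3) : ℝ) := by
      unfold MV
      rw [hq, e3]
      push_cast
      ring
    rw [hM]
    have hN : (0 : ℝ) < (n : ℝ) * (n - 1) * (n - 2) * (n - 3) := by
      have x1 : (0 : ℝ) < (n : ℝ) - 1 := by linarith
      have x2 : (0 : ℝ) < (n : ℝ) - 2 := by linarith
      have x3 : (0 : ℝ) < (n : ℝ) - 3 := by linarith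
      positivity
    have hp := h2 t n ht h9 h4t
    have hp3 := mul_le_mul_of_nonneg_right hp hC0
    refine le_of_mul_le_mul_right ?_ hN
    have l1 : (g * Cb + 4 * ((n - 4).choose (t - 3) : ℝ)) * ((n : ℝ) * (n - 1) * (n - 2) * (n - 3)) =
        (g * ((n : ℝ) * (n - 1) * (n - 2) * (n - 3)) + 4 * (t : ℝ) * (t - 1) * (t - 2) * ((n : ℝ) - t)) * Cb := by
      have : 4 * ((n - 4).choose (t - 3) : ℝ) * ((n : ℝ) * (n - 1) * (n - 2) * (n - 3)) =
          4 * (t * ((t : ℝ) - 1) * ((t : ℝ) - 2) * ((n : ℝ) - t) * Cb) := by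
        rw [← r3]
        ring
      linear_combination this
    have l2 : 3 * ((n - 3).choose (t - 1) : ℝ) * ((n : ℝ) * (n - 1) * (n - 2) * (n - 3)) =
        3 * (t : ℝ) * ((n : ℝ) - t) * ((n : ℝ) - t - 1) * ((n : ℝ) - 3) * Cb := by
      linear_combination 3 * ((n : ℝ) - 3) * r1
    rw [l1, l2]
    exact hp3

end Pool.Agent.helper37.NG
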